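import Pool.Agent.Y720.MZ.Acc

/-!
# Mordell curves with positive rank along geometric progressions

Let `E_b` be the curve `y² = x³ + b`.  If `E_a` has positive rank then there is an integer `Q`,
neither a square nor a cube, such that all the curves `E_{a Qⁱ}` have positive rank.

We take `Q = -3 w²`.  Since `E_k` is isogenous to `E_{-27 k}` and `Q³ = -27 w⁶`, only the curves with
`i = 0, 1, 2` matter.  If `w = 3 z`, `σ² = z + a` and `τ² = 3 m³ z² - 3 a`, then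
`(σ² + 3 a, σ³ - 9 a σ)` is on `E_{a Q}` and `((τ² - 9 a) / m², (τ³ + 27 a τ) / m³)` is on
`E_{a Q²}`.  A point of `E_a` gives a solution `(z, σ, τ, m)` for which `Q` is a cube; keeping `m`
fixed, the curve of genus one in the variables `z, σ, τ` has one more rational point, obtained by a
plane section.  If the point of `E_a` is `3`-adically close to the origin, then the `3`-adic
valuation of the new `z` is not divisible by `3`, and the two new points are `3`-adically close to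
the origin, and hence of infinite order.
-/

set_option autoImplicit false

open WeierstrassCurve Pool.Agent.Y720.MZ

namespace Pool.Agent.Results.MP_cfe824_nt.GeometricProgressions

/-- the elliptic curve `y² = x³ + b` over the rational numbers -/
def mordell (b : ℤ) : WeierstrassCurve ℚ := ⟨0, 0, 0, 0, b⟩

/-- the rank of the Mordell-Weil group of `y² = x³ + b` -/
noncomputable def rk (b : ℤ) : Cardinal := Module.rank ℤ (mordell b).toAffine.Point

/-- the `3`-adic absolute value of a rational number -/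
noncomputable def N (q : ℚ) : ℝ := ‖(q : ℚ_[3])‖

lemma N_mul (p q : ℚ) : N (p * q) = N p * N q := by simp [N]
lemma N_div (p q : ℚ) : N (p / q) = N p / N q := by simp [N]
lemma N_pow (p : ℚ) (n : ℕ) : N (p ^ n) = N p ^ n := by simp [N]
lemma N_neg (p : ℚ) : N (-p) = N p := by simp [N]
lemma N_nonneg (p : ℚ) : 0 ≤ N p := norm_nonneg _
lemma N_zero : N 0 = 0 := by simp [N]
lemma N_one : N 1 = 1 := by simp [N]
lemma N_pos {p : ℚ} (h : p ≠ 0) : 0 < N p := by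
  rw [N, norm_pos_iff]; exact_mod_cast h
lemma ne_of_N {p : ℚ} (h : 0 < N p) : p ≠ 0 := by
  rintro rfl; rw [N_zero] at h; exact lt_irrefl _ h
lemma N_int (n : ℤ) : N n ≤ 1 := by
  have := Padic.norm_int_le_one (p := 3) n
  simpa [N] using this
lemma N_nat (n : ℕ) : N n ≤ 1 := by
  have := N_int n
  simpa using this
lemma N_three : N 3 = 1 / 3 := by
  have := Padic.norm_p (p := 3)
  simp only [N]
  push_cast
  simpa using this
lemma N_two : N 2 = 1 := by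
  have h : ‖((2 : ℤ) : ℚ_[3])‖ = 1 := by
    have h1 := Padic.norm_int_le_one (p := 3) 2
    have h2 := (Padic.norm_intCast_lt_one_iff (p := 3) (k := 2)).not.2 (by norm_num)
    exact le_antisymm h1 (not_lt.1 h2)
  simpa [N] using h
lemma N_add (p q : ℚ) : N (p + q) ≤ max (N p) (N q) := by
  have := Padic.nonarchimedean (p := 3) (p : ℚ_[3]) q
  simpa [N] using this
lemma N_add_eq {p q : ℚ} (h : N q < N p) : N (p + q) = N p := by
  have h1 : ‖(p : ℚ_[3])‖ ≠ ‖(q : ℚ_[3])‖ := ne_of_gt h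
  have := Padic.add_eq_max_of_ne h1
  simp only [N] at *
  push_cast
  rw [this, max_eq_left h.le]
lemma N_sub_eq {p q : ℚ} (h : N q < N p) : N (p - q) = N p := by
  rw [sub_eq_add_neg]
  exact N_add_eq (by rwa [N_neg])

/-- doubling on `y² = x³ + k` -/
lemma dbl' {k x y : ℚ} (h : (cv 0 0 k).toAffine.Nonsingular x y) (hy : y ≠ 0) :
    ∃ ℓ x2 y2 h2, (.some x y h : Pt (0 : ℚ) 0 k) + .some x y h = .some x2 y2 h2 ∧
      ℓ * (2 * y) = 3 * x ^ 2 ∧ x2 = ℓ ^ 2 - 2 * x ∧ y2 = -(ℓ * (x2 - x) + y) := by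
  have h2y : 2 * y ≠ 0 := mul_ne_zero two_ne_zero hy
  obtain ⟨h2, he2⟩ := dbl_mk h h2y (ℓ := (3 * x ^ 2 + 2 * 0 * x + 0) / (2 * y))
    (div_mul_cancel₀ _ h2y)
  refine ⟨(3 * x ^ 2 + 2 * 0 * x + 0) / (2 * y), _, _, h2, he2, ?_, by ring, by ring⟩
  rw [div_mul_cancel₀ _ h2y]; ring

/-- adding on `y² = x³ + k` -/
lemma add' {k x₁ y₁ x₂ y₂ : ℚ} (h₁ : (cv 0 0 k).toAffine.Nonsingular x₁ y₁)
    (h₂ : (cv 0 0 k).toAffine.Nonsingular x₂ y₂) (hx : x₁ ≠ x₂) :
    ∃ ℓ x3 y3 h3, (.some x₁ y₁ h₁ : Pt (0 : ℚ) 0 k) + .some x₂ y₂ h₂ = .some x3 y3 h3 ∧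
      ℓ * (x₁ - x₂) = y₁ - y₂ ∧ x3 = ℓ ^ 2 - x₁ - x₂ := by
  obtain ⟨h3, he3⟩ := add_mk h₁ h₂ hx (ℓ := (y₁ - y₂) / (x₁ - x₂))
    (div_mul_cancel₀ _ (sub_ne_zero.2 hx))
  exact ⟨(y₁ - y₂) / (x₁ - x₂), _, _, h3, he3, div_mul_cancel₀ _ (sub_ne_zero.2 hx), by ring⟩

lemma N_four : N 4 = 1 := by
  rw [show (4 : ℚ) = 2 ^ 2 by norm_num, N_pow, N_two]; norm_num

lemma pos_of_big {k x : ℚ} (hx : N k < N x ^ 3) : 0 < N x := by
  by_contra hc
  have h0 : N x = 0 := le_antisymm (not_lt.1 hc) (N_nonneg x)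
  rw [h0] at hx
  have := N_nonneg k
  norm_num at hx
  linarith

lemma y_big {k x y : ℚ} (e : y ^ 2 = x ^ 3 + k) (hx : N k < N x ^ 3) : N y ^ 2 = N x ^ 3 := by
  rw [← N_pow, e, N_add_eq (by rwa [N_pow]), N_pow]

/-- on a point close to the origin, tripling multiplies the size of the abscissa by `9` -/
lemma triple {k x y : ℚ} (h : (cv 0 0 k).toAffine.Nonsingular x y) (hx : N k < N x ^ 3) :
    ∃ x' y' h', 3 • (.some x y h : Pt (0 : ℚ) 0 k) = .some x' y' h' ∧ N x' = 9 * N x := by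
  have e : y ^ 2 = x ^ 3 + k := by
    have := (cv_ns.1 h).1
    linear_combination this
  have hx0 : 0 < N x := pos_of_big hx
  have hxne : x ≠ 0 := ne_of_N hx0
  have hy2 : N y ^ 2 = N x ^ 3 := y_big e hx
  have hy0 : 0 < N y := by
    rcases (N_nonneg y).lt_or_eq with h0 | h0
    · exact h0
    · rw [← h0] at hy2
      have : 0 < N x ^ 3 := by positivity
      rw [← hy2] at this
      norm_num at this
  have hyne : y ≠ 0 := ne_of_N hy0
  obtain ⟨ℓ, x2, y2, h2, he2, hℓy, hx2, hy2def⟩ := dbl' h hyne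
  -- the difference of the abscissae
  have hd : (x2 - x) * (4 * y ^ 2) = -(3 * x * (x ^ 3 + 4 * k)) := by
    have : (x2 - x) * (4 * y ^ 2) = (ℓ * (2 * y)) ^ 2 - 3 * x * (4 * y ^ 2) := by
      rw [hx2]; ring
    rw [this, hℓy, e]; ring
  have hN4k : N (x ^ 3 + 4 * k) = N x ^ 3 := by
    rw [N_add_eq, N_pow]
    rw [N_mul, N_four, one_mul, N_pow]; exact hx
  have hdN : N (x2 - x) = N x / 3 := by
    have := congrArg N hd
    rw [N_mul, N_mul, N_pow, N_four, N_neg, N_mul, N_mul, N_three, hN4k, hy2] at this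
    have h3 : 0 < N x ^ 3 := by positivity
    have h4 : N (x2 - x) * N x ^ 3 = N x / 3 * N x ^ 3 := by linarith
    exact mul_right_cancel₀ h3.ne' h4
  have hdne : x2 - x ≠ 0 := ne_of_N (by rw [hdN]; positivity)
  have hxx : x2 ≠ x := sub_ne_zero.1 hdne
  have hℓN : N ℓ * N y = N x ^ 2 / 3 := by
    have := congrArg N hℓy
    rw [N_mul, N_mul, N_mul, N_two, N_three, N_pow] at this
    linarith
  have hyd : N (y2 - y) = N y := by
    have e1 : y2 - y = -(2 * y + ℓ * (x2 - x)) := by rw [hy2def]; ring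
    rw [e1, N_neg, N_add_eq, N_mul, N_two, one_mul]
    rw [N_mul, N_mul, N_two, one_mul, hdN]
    have h5 : N ℓ * (N x / 3) * N y < N y * N y := by
      calc N ℓ * (N x / 3) * N y = (N ℓ * N y) * N x / 3 := by ring
        _ = N x ^ 3 / 9 := by rw [hℓN]; ring
        _ < N x ^ 3 := by have : 0 < N x ^ 3 := by positivity
                          linarith
        _ = N y * N y := by rw [← hy2]; ring
    exact lt_of_mul_lt_mul_right h5 hy0.le
  obtain ⟨m, x3, y3, h3, he3, hm, hx3⟩ := add' h2 h hxx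
  refine ⟨x3, y3, h3, ?_, ?_⟩
  · rw [show (3 : ℕ) = 2 + 1 by norm_num, add_smul, two_smul, one_smul, he2, he3]
  · have h6 : N (m ^ 2) = 9 * N x := by
      have h61 := congrArg N hm
      rw [N_mul, hdN, hyd] at h61
      have h62 : (N m * (N x / 3)) ^ 2 = N x ^ 3 := by rw [h61, hy2]
      rw [N_pow]
      have h63 : 0 < N x ^ 2 := by positivity
      have h64 : N m ^ 2 * N x ^ 2 = 9 * N x * N x ^ 2 := by linarith
      exact mul_right_cancel₀ h63.ne' h64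
    have h7 : N x2 ≤ N x := by
      have : x2 = (x2 - x) + x := by ring
      rw [this]
      refine (N_add _ _).trans (max_le ?_ le_rfl)
      rw [hdN]; linarith
    have e7 : x3 = m ^ 2 + (-x2 + -x) := by rw [hx3]; ring
    rw [e7, N_add_eq, h6]
    rw [h6]
    refine (N_add _ _).trans_lt (max_lt ?_ ?_)
    · rw [N_neg]; linarith
    · rw [N_neg]; linarith

/-- a point close to the origin has infinite order -/
lemma inf_order {k x y : ℚ} (h : (cv 0 0 k).toAffine.Nonsingular x y) (hx : N k < N x ^ 3) :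
    ∀ n : ℕ, n ≠ 0 → n • (.some x y h : Pt (0 : ℚ) 0 k) ≠ 0 := by
  have hx0 : 0 < N x := pos_of_big hx
  have step : ∀ j : ℕ, ∃ x' y' h', 3 ^ j • (.some x y h : Pt (0 : ℚ) 0 k) = .some x' y' h' ∧
      N x' = 9 ^ j * N x := by
    intro j
    induction j with
    | zero => exact ⟨x, y, h, by simp, by simp⟩
    | succ j ih =>
      obtain ⟨x', y', h', he, hN⟩ := ih
      obtain ⟨x'', y'', h'', he', hN'⟩ := triple h' (by
        rw [hN]
        refine hx.trans_le ?_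
        have : (1 : ℝ) ≤ 9 ^ j := one_le_pow₀ (by norm_num)
        gcongr
        nlinarith)
      refine ⟨x'', y'', h'', ?_, ?_⟩
      · rw [pow_succ', mul_smul, he, he']
      · rw [hN', hN, pow_succ']; ring
  intro n hn h0
  -- the multiples `3 ^ j • P` take at most `n` values
  have hinj : Function.Injective (fun j : ℕ => 3 ^ j • (.some x y h : Pt (0 : ℚ) 0 k)) := by
    intro i j hij
    obtain ⟨x1, y1, h1, he1, hN1⟩ := step i
    obtain ⟨x2, y2, h2, he2, hN2⟩ := step j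
    simp only at hij
    rw [he1, he2, Affine.Point.some.injEq] at hij
    have h3 : (9 : ℝ) ^ i * N x = 9 ^ j * N x := by rw [← hN1, ← hN2, hij.1]
    have h4 : (9 : ℝ) ^ i = 9 ^ j := mul_right_cancel₀ hx0.ne' h3
    exact pow_right_injective₀ (by norm_num) (by norm_num) h4
  have hfin : (Set.range (fun j : ℕ => 3 ^ j • (.some x y h : Pt (0 : ℚ) 0 k))).Finite := by
    refine Set.Finite.subset (Set.finite_range (fun i : Fin n =>
      (i : ℕ) • (.some x y h : Pt (0 : ℚ) 0 k))) ?_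
    rintro _ ⟨j, rfl⟩
    refine ⟨⟨3 ^ j % n, Nat.mod_lt _ (Nat.pos_of_ne_zero hn)⟩, ?_⟩
    simp only
    conv_rhs => rw [← Nat.mod_add_div (3 ^ j) n, add_smul, mul_comm, mul_smul, h0, smul_zero,
      add_zero]
  exact Set.infinite_range_of_injective hinj hfin

/-- there is a rational point of `y² = x³ + k` that is `3`-adically close to the origin -/
def Good (k : ℚ) : Prop := ∃ x y : ℚ, y ^ 2 = x ^ 3 + k ∧ N k < N x ^ 3

/-- the isogeny of degree `3` followed by a change of variables -/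
lemma Good.isog {k : ℚ} (h : Good k) {t : ℚ} (ht : t ≠ 0) : Good (-27 * k * t ^ 6) := by
  obtain ⟨x, y, e, hx⟩ := h
  have hx0 : 0 < N x := pos_of_big hx
  have hxne : x ≠ 0 := ne_of_N hx0
  refine ⟨(x ^ 3 + 4 * k) / x ^ 2 * t ^ 2, y * (x ^ 3 - 8 * k) / x ^ 3 * t ^ 3, ?_, ?_⟩
  · field_simp
    rw [e]
    ring
  · have h1 : N (x ^ 3 + 4 * k) = N x ^ 3 := by
      rw [N_add_eq, N_pow]
      rw [N_mul, N_four, one_mul, N_pow]; exact hx
    have h2 : N ((x ^ 3 + 4 * k) / x ^ 2 * t ^ 2) = N x * N t ^ 2 := by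
      rw [N_mul, N_div, h1, N_pow, N_pow]
      field_simp
    have ht0 := N_pos ht
    rw [h2, N_mul, N_mul, N_pow, N_neg, mul_pow]
    have h27 : N 27 ≤ 1 := by simpa using N_nat 27
    have hk := N_nonneg k
    calc N 27 * N k * N t ^ 6 ≤ 1 * N k * N t ^ 6 := by gcongr
      _ = N k * N t ^ 6 := by ring
      _ < N x ^ 3 * N t ^ 6 := by gcongr
      _ = N x ^ 3 * (N t ^ 2) ^ 3 := by ring

/-- a curve with a point close to the origin has positive rank -/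
lemma Good.rk_pos {b : ℤ} (h : Good b) : 0 < rk b := by
  obtain ⟨x, y, e, hx⟩ := h
  have hns : (cv (0 : ℚ) 0 b).toAffine.Nonsingular x y := by
    rw [cv_ns]
    refine ⟨by linear_combination e, ?_⟩
    by_cases hy : y = 0
    · left
      intro h0
      have hx0 : x ≠ 0 := ne_of_N (pos_of_big hx)
      have : x ^ 2 = 0 := by linear_combination h0 / 3
      exact hx0 (pow_eq_zero_iff two_ne_zero |>.1 this)
    · right
      exact mul_ne_zero two_ne_zero hy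
  have hinf := inf_order hns hx
  rw [pos_iff_ne_zero]
  intro h0
  obtain ⟨c, hc, hcP⟩ := (rank_eq_zero_iff.1 h0) (.some x y hns : Pt (0 : ℚ) 0 b)
  have hc' : c.natAbs • (.some x y hns : Pt (0 : ℚ) 0 b) = 0 := by
    rcases Int.natAbs_eq c with h1 | h1
    · rw [h1] at hcP
      rw [← natCast_zsmul]; exact hcP
    · rw [h1, neg_smul, neg_eq_zero] at hcP
      rw [← natCast_zsmul]; exact hcP
  exact hinf _ (Int.natAbs_ne_zero.2 hc) hc'

/-- a curve of positive rank has points as close to the origin as we please -/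
lemma exists_close {a : ℤ} (ha : a ≠ 0) (h : 0 < rk a) (R : ℝ) :
    ∃ x y : ℚ, y ^ 2 = x ^ 3 + a ∧ R < N x := by
  have h1 : ¬ ∀ P : (mordell a).toAffine.Point, ∃ c : ℤ, c ≠ 0 ∧ c • P = 0 := by
    intro h2
    exact h.ne' (rank_eq_zero_iff.2 h2)
  push Not at h1
  obtain ⟨P, hP⟩ := h1
  have hD : dsc (0 : ℚ) 0 a ≠ 0 := by
    have : (a : ℚ) ≠ 0 := by exact_mod_cast ha
    simp [dsc, this]
  obtain ⟨n, -, x, y, hns, -, hR⟩ := accum (algebraMap ℚ ℚ_[3]) hD (P := (P : Pt (0 : ℚ) 0 a))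
    (fun n hn h0 => hP n (by exact_mod_cast hn) (by rw [natCast_zsmul]; exact h0)) R
  refine ⟨x, y, ?_, by simpa [N] using hR⟩
  have := (cv_ns.1 hns).1
  linear_combination this

/-- one more point on the intersection of two quadrics -/
lemma second {F : Type*} [Field F] {a κ z₀ σ₀ τ₀ l β γ : F} (h1 : σ₀ ^ 2 = z₀ + a)
    (h2 : τ₀ ^ 2 = κ * z₀ ^ 2 - 3 * a) (hβ : σ₀ * β = -τ₀)
    (hγ : 2 * σ₀ * γ + β ^ 2 = -(2 * a * κ))
    (hl : l * (2 * β * γ - 2 * κ * τ₀) = -(κ ^ 2 * (z₀ - a) + γ ^ 2)) (hΔ : l ^ 2 - κ ≠ 0) :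
    ((σ₀ * l ^ 2 + β * l + γ) / (l ^ 2 - κ)) ^ 2 =
      (z₀ * (l ^ 2 + κ) - 2 * l * τ₀) / (l ^ 2 - κ) + a ∧
    (τ₀ + l * ((z₀ * (l ^ 2 + κ) - 2 * l * τ₀) / (l ^ 2 - κ) - z₀)) ^ 2 =
      κ * ((z₀ * (l ^ 2 + κ) - 2 * l * τ₀) / (l ^ 2 - κ)) ^ 2 - 3 * a := by
  constructor
  · rw [div_pow, div_add' _ _ _ hΔ, div_eq_div_iff (pow_ne_zero 2 hΔ) hΔ]
    linear_combination (l ^ 2 - κ) * (l ^ 4 * h1 + 2 * l ^ 3 * hβ + l ^ 2 * hγ + hl)
  · field_simp
    linear_combination (l ^ 2 - κ) ^ 2 * h2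

/-- a change of variables -/
lemma Good.scale {k : ℚ} (h : Good k) {t : ℚ} (ht : t ≠ 0) : Good (k * t ^ 6) := by
  obtain ⟨x, y, e, hx⟩ := h
  refine ⟨x * t ^ 2, y * t ^ 3, ?_, ?_⟩
  · linear_combination t ^ 6 * e
  · have ht0 := N_pos ht
    rw [N_mul, N_mul, N_pow, N_pow]
    calc N k * N t ^ 6 < N x ^ 3 * N t ^ 6 := by gcongr
      _ = (N x * N t ^ 2) ^ 3 := by ring

section polys

open Polynomial

/-- the polynomials that govern the size of the new point -/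
noncomputable def pA : ℤ_[3][X] := (1 + 4 * X) ^ 3
noncomputable def pB : ℤ_[3][X] := (1 + X) * (1 - 8 * X) ^ 2
noncomputable def pN : ℤ_[3][X] := 4 * (1 + X) ^ 3 * (1 - X) * pA ^ 2 + (2 * X * pA * (1 + X) + pB) ^ 2
noncomputable def pD : ℤ_[3][X] := pB - 2 * pA * (1 + X)

lemma eval_close (P : ℤ_[3][X]) (T : ℤ_[3]) : ∃ W : ℤ_[3], P.eval (27 * T) = P.eval 0 + 27 * W := by
  obtain ⟨W, hW⟩ := Polynomial.sub_dvd_eval_sub (27 * T) 0 P
  exact ⟨T * W, by linear_combination hW⟩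

end polys

lemma norm_unit (c : ℤ) (hc : ¬ (3 : ℤ) ∣ c) (W : ℤ_[3]) : ‖((c : ℤ_[3]) + 27 * W)‖ = 1 := by
  have h1 : ‖(27 * W : ℤ_[3])‖ < 1 := by
    have : (27 * W : ℤ_[3]) = (3 : ℕ) * (9 * W) := by push_cast; ring
    rw [PadicInt.norm_lt_one_iff_dvd, this]
    exact Dvd.intro _ rfl
  have h2 : ‖(c : ℤ_[3])‖ = 1 := by
    have h3 := PadicInt.norm_le_one (c : ℤ_[3])
    have h4 : ¬ ‖(c : ℤ_[3])‖ < 1 := by
      rw [PadicInt.norm_intCast_lt_one_iff]
      exact_mod_cast hc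
    exact le_antisymm h3 (not_lt.1 h4)
  have h3 : ‖(c : ℤ_[3])‖ ≠ ‖(27 * W : ℤ_[3])‖ := by rw [h2]; exact h1.ne'
  rw [PadicInt.norm_add_eq_max_of_ne h3, h2, max_eq_left h1.le]

open Polynomial in
/-- the sizes of the quantities that define the new point -/
lemma sizes (φ : ℤ_[3] →+* ℚ_[3]) (hφ : ∀ z, ‖φ z‖ = ‖z‖) {U y Y A a d n : ℚ_[3]} {T : ℤ_[3]}
    (ha : a = 27 * φ T * U) (hy : y ^ 2 = U * (1 + 27 * φ T)) (hA : A = U * (1 + 108 * φ T) ^ 3)
    (hY : Y ^ 2 = U * (1 + 27 * φ T) * (1 - 216 * φ T) ^ 2) (hd : d = Y ^ 2 * U - 2 * A * y ^ 2)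
    (hn : n = 4 * (y ^ 2) ^ 3 * (U - a) * A ^ 2 + (2 * a * A * y ^ 2 + Y ^ 2 * U ^ 2) ^ 2) :
    ‖y ^ 2‖ = ‖U‖ ∧ ‖Y ^ 2‖ = ‖U‖ ∧ ‖d‖ = ‖U‖ ^ 2 ∧ ‖A‖ = ‖U‖ ∧
      ‖n ^ 2 - 16 * A * U ^ 4 * (y ^ 2) ^ 2 * Y ^ 2 * d ^ 2‖ = ‖U‖ ^ 12 / 9 ∧
      ‖U * (n ^ 2 + 16 * A * U ^ 4 * (y ^ 2) ^ 2 * Y ^ 2 * d ^ 2 + 8 * U ^ 2 * y ^ 2 * Y ^ 2 * d * n)‖ =
        ‖U‖ ^ 13 := by
  have e1 : ‖(1 + 27 * φ T : ℚ_[3])‖ = 1 := by
    have := norm_unit 1 (by norm_num) T
    rw [← hφ] at this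
    simp only [map_add, map_mul, map_ofNat, map_one, Int.cast_one] at this
    exact this
  have e2 : ‖(1 - 216 * φ T : ℚ_[3])‖ = 1 := by
    have := norm_unit 1 (by norm_num) (-8 * T)
    rw [← hφ] at this
    simp only [map_add, map_mul, map_ofNat, map_neg, map_one, Int.cast_one] at this
    rw [← this]
    congr 1
    ring
  have e3 : ‖(1 + 108 * φ T : ℚ_[3])‖ = 1 := by
    have := norm_unit 1 (by norm_num) (4 * T)
    rw [← hφ] at this
    simp only [map_add, map_mul, map_ofNat, map_one, Int.cast_one] at this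
    rw [← this]
    congr 1
    ring
  have hd' : d = U ^ 2 * φ (pD.eval (27 * T)) := by
    rw [hd, hY, hy, hA]
    simp only [pD, pA, pB, eval_add, eval_sub, eval_mul, eval_pow, eval_X, eval_one, eval_ofNat]
    simp only [map_add, map_sub, map_mul, map_pow, map_ofNat, map_one]
    ring
  have hn' : n = U ^ 6 * φ (pN.eval (27 * T)) := by
    rw [hn, hY, hy, hA, ha]
    simp only [pN, pA, pB, eval_add, eval_sub, eval_mul, eval_pow, eval_X, eval_one, eval_ofNat]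
    simp only [map_add, map_sub, map_mul, map_pow, map_ofNat, map_one]
    ring
  have hdN : ‖φ (pD.eval (27 * T))‖ = 1 := by
    obtain ⟨W, hW⟩ := eval_close pD T
    have h0 : pD.eval 0 = ((-1 : ℤ) : ℤ_[3]) := by
      simp only [pD, pA, pB, eval_add, eval_sub, eval_mul, eval_pow, eval_X, eval_one, eval_ofNat]
      norm_num
    rw [hφ, hW, h0]
    exact norm_unit _ (by norm_num) W
  have h5 : ‖n ^ 2 - 16 * A * U ^ 4 * (y ^ 2) ^ 2 * Y ^ 2 * d ^ 2‖ = ‖U‖ ^ 12 / 9 := by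
    obtain ⟨W, hW⟩ := eval_close (pN ^ 2 - 16 * pA * pB * (1 + X) ^ 2 * pD ^ 2) T
    have h0 : (pN ^ 2 - 16 * pA * pB * (1 + X) ^ 2 * pD ^ 2).eval 0 = (9 : ℤ_[3]) := by
      simp only [pN, pD, pA, pB, eval_add, eval_sub, eval_mul, eval_pow, eval_X, eval_one,
        eval_ofNat]
      norm_num
    have h1 : n ^ 2 - 16 * A * U ^ 4 * (y ^ 2) ^ 2 * Y ^ 2 * d ^ 2 = U ^ 12 *
        φ ((pN ^ 2 - 16 * pA * pB * (1 + X) ^ 2 * pD ^ 2).eval (27 * T)) := by
      rw [hd', hn', hA, hy, hY]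
      simp only [eval_sub, eval_mul, eval_pow, eval_add, eval_X, eval_one, eval_ofNat]
      have hA' : (eval (27 * T) pA : ℤ_[3]) = (1 + 108 * T) ^ 3 := by
        simp only [pA, eval_add, eval_mul, eval_pow, eval_X, eval_one, eval_ofNat]
        ring
      have hB' : (eval (27 * T) pB : ℤ_[3]) = (1 + 27 * T) * (1 - 216 * T) ^ 2 := by
        simp only [pB, eval_add, eval_sub, eval_mul, eval_pow, eval_X, eval_one, eval_ofNat]
        ring
      rw [hA', hB']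
      simp only [map_add, map_sub, map_mul, map_pow, map_ofNat, map_one]
      ring
    have h2 : ((9 : ℤ_[3]) + 27 * W) = (3 : ℕ) ^ 2 * (((1 : ℤ) : ℤ_[3]) + 27 * 0 + 3 * W) := by
      push_cast; ring
    have h3 : ‖(((1 : ℤ) : ℤ_[3]) + 27 * 0 + 3 * W)‖ = 1 := by
      have h4 : ‖(3 * W : ℤ_[3])‖ < 1 := by
        rw [PadicInt.norm_lt_one_iff_dvd]
        exact ⟨W, by push_cast; ring⟩
      have h6 : ‖(((1 : ℤ) : ℤ_[3]) + 27 * 0)‖ = 1 := norm_unit 1 (by norm_num) 0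
      rw [PadicInt.norm_add_eq_max_of_ne (by rw [h6]; exact h4.ne'), h6, max_eq_left h4.le]
    rw [h1, norm_mul, norm_pow, hφ, hW, h0, h2, norm_mul, h3, norm_pow,
      PadicInt.norm_p]
    push_cast
    ring
  have h6 : ‖U * (n ^ 2 + 16 * A * U ^ 4 * (y ^ 2) ^ 2 * Y ^ 2 * d ^ 2 +
      8 * U ^ 2 * y ^ 2 * Y ^ 2 * d * n)‖ = ‖U‖ ^ 13 := by
    obtain ⟨W, hW⟩ := eval_close
      (pN ^ 2 + 16 * pA * pB * (1 + X) ^ 2 * pD ^ 2 + 8 * (1 + X) * pB * pD * pN) T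
    have h0 : (pN ^ 2 + 16 * pA * pB * (1 + X) ^ 2 * pD ^ 2 + 8 * (1 + X) * pB * pD * pN).eval 0 =
        ((1 : ℤ) : ℤ_[3]) := by
      simp only [pN, pD, pA, pB, eval_add, eval_sub, eval_mul, eval_pow, eval_X, eval_one,
        eval_ofNat]
      norm_num
    have h1 : U * (n ^ 2 + 16 * A * U ^ 4 * (y ^ 2) ^ 2 * Y ^ 2 * d ^ 2 +
        8 * U ^ 2 * y ^ 2 * Y ^ 2 * d * n) = U ^ 13 *
        φ ((pN ^ 2 + 16 * pA * pB * (1 + X) ^ 2 * pD ^ 2 + 8 * (1 + X) * pB * pD * pN).eval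
          (27 * T)) := by
      rw [hd', hn', hA, hy, hY]
      simp only [eval_sub, eval_mul, eval_pow, eval_add, eval_X, eval_one, eval_ofNat]
      have hA' : (eval (27 * T) pA : ℤ_[3]) = (1 + 108 * T) ^ 3 := by
        simp only [pA, eval_add, eval_mul, eval_pow, eval_X, eval_one, eval_ofNat]
        ring
      have hB' : (eval (27 * T) pB : ℤ_[3]) = (1 + 27 * T) * (1 - 216 * T) ^ 2 := by
        simp only [pB, eval_add, eval_sub, eval_mul, eval_pow, eval_X, eval_one, eval_ofNat]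
        ring
      rw [hA', hB']
      simp only [map_add, map_sub, map_mul, map_pow, map_ofNat, map_one]
      ring
    rw [h1, norm_mul, norm_pow, hφ, hW, h0, norm_unit _ (by norm_num) W, mul_one]
  refine ⟨?_, ?_, ?_, ?_, h5, h6⟩
  · rw [hy, norm_mul, e1, mul_one]
  · rw [hY, norm_mul, norm_mul, norm_pow, e1, e2]; ring
  · rw [hd', norm_mul, norm_pow, hdN, mul_one]
  · rw [hA, norm_mul, norm_pow, e3]; ring

/-- the construction: from a point close to the origin on `y² = x³ + a` one gets a `z` such that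
the twists of the curve by `Q = -27 z²` and by `Q²` have points close to the origin -/
lemma construct {a x y : ℚ} (e : y ^ 2 = x ^ 3 + a) (hx0 : 0 < N x) (hx : 27 * N a ≤ N x ^ 3) :
    ∃ z : ℚ, N z = 9 * N x ^ 3 ∧ Good (-27 * a * z ^ 2) ∧ Good (729 * a * z ^ 4) := by
  have hxne : x ≠ 0 := ne_of_N hx0
  obtain ⟨U, hU⟩ : ∃ U, U = x ^ 3 := ⟨_, rfl⟩
  have hUne : U ≠ 0 := by rw [hU]; exact pow_ne_zero _ hxne
  have hNU : N U = N x ^ 3 := by rw [hU, N_pow]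
  have hNU0 : 0 < N U := N_pos hUne
  obtain ⟨X, hX⟩ : ∃ X, X = (x ^ 3 + 4 * a) / x ^ 2 := ⟨_, rfl⟩
  obtain ⟨Y, hY⟩ : ∃ Y, Y = y * (x ^ 3 - 8 * a) / x ^ 3 := ⟨_, rfl⟩
  obtain ⟨A, hA⟩ : ∃ A, A = X ^ 3 := ⟨_, rfl⟩
  have eXY : Y ^ 2 = A - 27 * a := by
    rw [hA, hX, hY]
    field_simp
    rw [e]
    ring
  obtain ⟨d, hd⟩ : ∃ d, d = Y ^ 2 * U - 2 * A * y ^ 2 := ⟨_, rfl⟩
  obtain ⟨n, hn⟩ : ∃ n, n = 4 * (y ^ 2) ^ 3 * (U - a) * A ^ 2 +
    (2 * a * A * y ^ 2 + Y ^ 2 * U ^ 2) ^ 2 := ⟨_, rfl⟩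
  -- the `3`-adic integer `a / (27 U)`
  have hT : ‖((a / (27 * U) : ℚ) : ℚ_[3])‖ ≤ 1 := by
    change N (a / (27 * U)) ≤ 1
    have h27 : N 27 = 1 / 27 := by
      rw [show (27 : ℚ) = 3 ^ 3 by norm_num, N_pow, N_three]; norm_num
    rw [N_div, N_mul, h27, div_le_one (by positivity), hNU]
    linarith
  obtain ⟨T, hT'⟩ : ∃ T : ℤ_[3], PadicInt.Coe.ringHom T = ((a / (27 * U) : ℚ) : ℚ_[3]) :=
    ⟨⟨_, hT⟩, rfl⟩
  have hUne' : (U : ℚ_[3]) ≠ 0 := by exact_mod_cast hUne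
  have ha' : (a : ℚ_[3]) = 27 * PadicInt.Coe.ringHom T * U := by
    rw [hT']
    push_cast
    field_simp
  have hmain := sizes PadicInt.Coe.ringHom (fun z => rfl) (U := U) (y := y) (Y := Y) (A := A)
    (a := a) (d := d) (n := n) (T := T) ha' (by
      rw [show (y : ℚ_[3]) ^ 2 = ((y ^ 2 : ℚ) : ℚ_[3]) by push_cast; rfl, e, ← hU]
      push_cast
      rw [ha']; ring) (by
      have : A = (U + 4 * a) ^ 3 / U ^ 2 := by
        rw [hA, hX, hU]; field_simp
      rw [this]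
      push_cast
      rw [ha']
      field_simp
      ring) (by
      have : Y ^ 2 = (U + a) * (U - 8 * a) ^ 2 / U ^ 2 := by
        rw [hY, hU, ← e]; field_simp
      rw [show (Y : ℚ_[3]) ^ 2 = ((Y ^ 2 : ℚ) : ℚ_[3]) by push_cast; rfl, this]
      push_cast
      rw [ha']
      field_simp
      ring) (by rw [hd]; push_cast; rfl) (by rw [hn]; push_cast; rfl)
  obtain ⟨s1, s2, s3, s4, s5, s6⟩ := hmain
  have s1' : N (y ^ 2) = N U := by simpa [N] using s1
  have s2' : N (Y ^ 2) = N U := by simpa [N] using s2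
  have s3' : N d = N U ^ 2 := s3
  have s4' : N A = N U := s4
  have s5' : N (n ^ 2 - 16 * A * U ^ 4 * (y ^ 2) ^ 2 * Y ^ 2 * d ^ 2) = N U ^ 12 / 9 := by
    rw [← show ‖(U : ℚ_[3])‖ = N U from rfl, ← s5, N]; push_cast; rfl
  have s6' : N (U * (n ^ 2 + 16 * A * U ^ 4 * (y ^ 2) ^ 2 * Y ^ 2 * d ^ 2 +
      8 * U ^ 2 * y ^ 2 * Y ^ 2 * d * n)) = N U ^ 13 := by
    rw [← show ‖(U : ℚ_[3])‖ = N U from rfl, ← s6, N]; push_cast; rfl
  clear s1 s2 s3 s4 s5 s6
  have hyne : y ≠ 0 := by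
    have : y ^ 2 ≠ 0 := ne_of_N (by rw [s1']; exact hNU0)
    exact fun h => this (by rw [h]; ring)
  have hYne : Y ≠ 0 := by
    have : Y ^ 2 ≠ 0 := ne_of_N (by rw [s2']; exact hNU0)
    exact fun h => this (by rw [h]; ring)
  have hdne : d ≠ 0 := ne_of_N (by rw [s3']; positivity)
  have hAne : A ≠ 0 := ne_of_N (by rw [s4']; exact hNU0)
  have hDne : n ^ 2 - 16 * A * U ^ 4 * (y ^ 2) ^ 2 * Y ^ 2 * d ^ 2 ≠ 0 :=
    ne_of_N (by rw [s5']; positivity)
  -- the data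
  obtain ⟨κ, hκ⟩ : ∃ κ, κ = A / (9 * U ^ 2) := ⟨_, rfl⟩
  obtain ⟨β, hβ⟩ : ∃ β, β = -(Y / (3 * y)) := ⟨_, rfl⟩
  obtain ⟨γ, hγ⟩ : ∃ γ, γ = -((2 * a * A * y ^ 2 + Y ^ 2 * U ^ 2) / (18 * U ^ 2 * y ^ 3)) := ⟨_, rfl⟩
  obtain ⟨l, hl⟩ : ∃ l, l = -(n / (12 * U ^ 3 * y ^ 2 * Y * d)) := ⟨_, rfl⟩
  have e1 : y ^ 2 = U + a := by rw [hU]; exact e
  have hΔ : l ^ 2 - κ = (n ^ 2 - 16 * A * U ^ 4 * (y ^ 2) ^ 2 * Y ^ 2 * d ^ 2) /
      (144 * U ^ 6 * (y ^ 2) ^ 2 * Y ^ 2 * d ^ 2) := by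
    rw [hl, hκ]
    field_simp
    ring
  have hM : U * (l ^ 2 + κ) - 2 * l * (Y / 3) =
      (U * (n ^ 2 + 16 * A * U ^ 4 * (y ^ 2) ^ 2 * Y ^ 2 * d ^ 2 +
      8 * U ^ 2 * y ^ 2 * Y ^ 2 * d * n)) / (144 * U ^ 6 * (y ^ 2) ^ 2 * Y ^ 2 * d ^ 2) := by
    rw [hl, hκ]
    field_simp
    ring
  have hE : (144 * U ^ 6 * (y ^ 2) ^ 2 * Y ^ 2 * d ^ 2) ≠ 0 := by positivity
  have hΔne : l ^ 2 - κ ≠ 0 := by
    rw [hΔ]; exact div_ne_zero hDne hE
  have hsec := second (a := a) (κ := κ) (z₀ := U) (σ₀ := y) (τ₀ := Y / 3) (l := l) (β := β)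
    (γ := γ) e1 (by
      rw [hκ]; field_simp; linear_combination 9 * eXY) (by rw [hβ]; field_simp)
    (by rw [hγ, hβ, hκ]; field_simp; ring)
    (by
      have h1 : 2 * β * γ - 2 * κ * (Y / 3) = Y * d / (27 * U * y ^ 4) := by
        rw [hβ, hγ, hκ, hd]
        have h2 : a = y ^ 2 - U := by rw [e1]; ring
        field_simp
        rw [h2]
        ring
      have h3 : κ ^ 2 * (U - a) + γ ^ 2 = n / (324 * U ^ 4 * y ^ 6) := by
        rw [hγ, hκ, hn]
        field_simp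
        ring
      rw [h1, h3, hl]
      field_simp
      ring) hΔne
  obtain ⟨z, hz⟩ : ∃ z, z = (U * (l ^ 2 + κ) - 2 * l * (Y / 3)) / (l ^ 2 - κ) := ⟨_, rfl⟩
  rw [← hz] at hsec
  obtain ⟨q1, q2⟩ := hsec
  obtain ⟨σ, hσ⟩ : ∃ σ, σ = (y * l ^ 2 + β * l + γ) / (l ^ 2 - κ) := ⟨_, rfl⟩
  obtain ⟨τ, hτ⟩ : ∃ τ, τ = Y / 3 + l * (z - U) := ⟨_, rfl⟩
  rw [← hσ] at q1
  rw [← hτ] at q2
  have hNz : N z = 9 * N U := by
    rw [hz, hM, hΔ, div_div_div_cancel_right₀ hE, N_div, s5', s6']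
    field_simp
  have hNa : 27 * N a ≤ N U := by rw [hNU]; exact hx
  have hNa0 := N_nonneg a
  have h4a : N (4 * a) = N a := by rw [N_mul, N_four, one_mul]
  refine ⟨z, by rw [hNz, hNU], ⟨σ ^ 2 + 3 * a, σ ^ 3 - 9 * a * σ, ?_, ?_⟩, ?_⟩
  · have h5 : z = σ ^ 2 - a := by rw [q1]; ring
    rw [h5]; ring
  · have h5 : σ ^ 2 + 3 * a = z + 4 * a := by rw [q1]; ring
    have h27 : N 27 = 1 / 27 := by
      rw [show (27 : ℚ) = 3 ^ 3 by norm_num, N_pow, N_three]; norm_num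
    rw [h5, N_add_eq (by rw [h4a, hNz]; linarith), N_mul, N_mul, N_neg, h27, N_pow, hNz]
    have : N a < 27 * (9 * N U) := by linarith
    have h6 : 0 < (9 * N U) ^ 2 := by positivity
    nlinarith
  · obtain ⟨m, hm⟩ : ∃ m, m = X / (3 * x ^ 2) := ⟨_, rfl⟩
    have hκm : κ = 3 * m ^ 3 := by
      rw [hκ, hm, hA, hU]; field_simp; ring
    have hκne : κ ≠ 0 := by rw [hκ]; positivity
    have hmne : m ≠ 0 := by
      intro h0; rw [hκm, h0] at hκne; exact hκne (by ring)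
    have h9 : N 9 = 1 / 9 := by
      rw [show (9 : ℚ) = 3 ^ 2 by norm_num, N_pow, N_three]; norm_num
    have h729 : N 729 = 1 / 729 := by
      rw [show (729 : ℚ) = 3 ^ 6 by norm_num, N_pow, N_three]; norm_num
    have hNκ : N κ = 9 / N U := by
      rw [hκ, N_div, N_mul, h9, N_pow, s4']; field_simp
    have hNm : N m ^ 3 = 27 / N U := by
      have := hNκ
      rw [hκm, N_mul, N_three, N_pow] at this
      have h10 : N m ^ 3 = 3 * (9 / N U) := by linarith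
      rw [h10]; ring
    have h12 : N (12 * a) ≤ N a := by
      rw [N_mul]
      have : N 12 ≤ 1 := by simpa using N_nat 12
      nlinarith
    have hNκz : N (κ * z ^ 2) = 729 * N U := by
      rw [N_mul, hNκ, N_pow, hNz]; field_simp; norm_num
    have h11 : N (τ ^ 2 - 9 * a) = 729 * N U := by
      rw [show τ ^ 2 - 9 * a = κ * z ^ 2 - 12 * a by rw [q2]; ring, N_sub_eq, hNκz]
      rw [hNκz]; linarith
    refine ⟨(τ ^ 2 - 9 * a) / m ^ 2, (τ ^ 3 + 27 * a * τ) / m ^ 3, ?_, ?_⟩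
    · have h13 : (τ ^ 3 + 27 * a * τ) ^ 2 = (τ ^ 2 - 9 * a) ^ 3 + 81 * a * (τ ^ 2 + 3 * a) ^ 2 := by
        ring
      have h14 : τ ^ 2 + 3 * a = 3 * m ^ 3 * z ^ 2 := by rw [q2, hκm]; ring
      rw [div_pow, div_pow, h13, h14]
      field_simp
      ring
    · rw [N_div, h11, N_mul, N_mul, h729, N_pow, N_pow, hNz, div_pow,
        show (N m ^ 2) ^ 3 = (N m ^ 3) ^ 2 by ring, hNm]
      have h15 : (729 * N U) ^ 3 / (27 / N U) ^ 2 = 531441 * N U ^ 5 := by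
        field_simp; norm_num
      rw [h15]
      have h16 : 1 / 729 * N a * (9 * N U) ^ 4 = 9 * N a * N U ^ 4 := by ring
      rw [h16]
      have h17 : 0 < N U ^ 4 := by positivity
      have h18 : 9 * N a < 531441 * N U := by linarith
      calc 9 * N a * N U ^ 4 < 531441 * N U * N U ^ 4 := by gcongr
        _ = 531441 * N U ^ 5 := by ring

/-- `(a, Q)` is a proper solution: `Q` is neither a square nor a cube, and all the curves
`y² = x³ + a Qⁱ` with `i ≥ 0` have positive rank -/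
def Proper (a Q : ℤ) : Prop :=
  (¬ ∃ t : ℤ, Q = t ^ 2) ∧ (¬ ∃ t : ℤ, Q = t ^ 3) ∧ ∀ i : ℕ, 0 < rk (a * Q ^ i)

/-- the sizes are powers of `3` -/
lemma N_zpow {q : ℚ} (hq : q ≠ 0) : ∃ j : ℤ, N q = 3 ^ j := by
  have h : (q : ℚ_[3]) ≠ 0 := by exact_mod_cast hq
  exact ⟨-(q : ℚ_[3]).valuation, by
    rw [N, Padic.norm_eq_zpow_neg_valuation h, Nat.cast_ofNat]⟩

/-- **Theorem.** If `y² = x³ + a` has positive rank, then there are infinitely many `Q` such that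
`(a, Q)` is a proper solution. -/
theorem result (a : ℤ) (ha : a ≠ 0) (h : 0 < rk a) : {Q : ℤ | Proper a Q}.Infinite := by
  obtain ⟨x, y, e, hx⟩ := exists_close ha h 3
  have hx0 : 0 < N x := by linarith
  have haN : N a ≤ 1 := by simpa using N_int a
  have hx27 : (27 : ℝ) < N x ^ 3 := by
    calc (27 : ℝ) = 3 ^ 3 := by norm_num
      _ < N x ^ 3 := by gcongr
  have hga : Good (a : ℚ) := ⟨x, y, e, by linarith⟩
  obtain ⟨z, hz, g1, g2⟩ := construct e hx0 (by linarith)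
  have hNz : 0 < N z := by rw [hz]; positivity
  have hzne : z ≠ 0 := ne_of_N hNz
  -- clearing denominators
  set w : ℕ → ℤ := fun k => z.num * (z.den : ℤ) ^ 2 * ((k : ℤ) + 1) ^ 3 with hw
  have hden : (z.den : ℚ) ≠ 0 := by exact_mod_cast z.den_ne_zero
  have hwz : ∀ k : ℕ, ((w k : ℤ) : ℚ) = z * ((z.den : ℚ) * ((k : ℚ) + 1)) ^ 3 := by
    intro k
    have h1 : (z.num : ℚ) = z * z.den := by
      rw [← Rat.mul_den_eq_num]
    simp only [hw]
    push_cast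
    rw [h1]
    ring
  have hk1 : ∀ k : ℕ, ((k : ℚ) + 1) ≠ 0 := fun k => by positivity
  have hwne : ∀ k : ℕ, w k ≠ 0 := by
    intro k h0
    have := hwz k
    rw [h0] at this
    have h1 : z * ((z.den : ℚ) * ((k : ℚ) + 1)) ^ 3 ≠ 0 :=
      mul_ne_zero hzne (pow_ne_zero _ (mul_ne_zero hden (hk1 k)))
    exact h1 (by rw [← this]; simp)
  refine Set.infinite_of_injective_forall_mem (f := fun k : ℕ => -27 * (w k) ^ 2) ?_ ?_
  · intro i j hij
    simp only at hij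
    have h1 : (w i) ^ 2 = (w j) ^ 2 := by linarith
    have h2 : ((w i : ℤ) : ℚ) ^ 2 = ((w j : ℤ) : ℚ) ^ 2 := by exact_mod_cast h1
    rw [hwz, hwz] at h2
    have h3 : z ^ 2 * (z.den : ℚ) ^ 6 ≠ 0 := mul_ne_zero (pow_ne_zero _ hzne) (pow_ne_zero _ hden)
    have h4 : ((i : ℚ) + 1) ^ 6 = ((j : ℚ) + 1) ^ 6 := by
      apply mul_left_cancel₀ h3
      linear_combination h2
    have h5 : ((i : ℚ) + 1) = ((j : ℚ) + 1) :=
      (pow_left_inj₀ (by positivity) (by positivity) (by norm_num : (6 : ℕ) ≠ 0)).1 h4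
    have h6 : (i : ℚ) = j := by linarith
    exact_mod_cast h6
  · intro k
    change Proper a (-27 * (w k) ^ 2)
    refine ⟨?_, ?_, ?_⟩
    · rintro ⟨t, ht⟩
      have h1 : 0 < (w k) ^ 2 := by
        have := hwne k
        positivity
      nlinarith [sq_nonneg t]
    · rintro ⟨t, ht⟩
      have ht' : (-27 * (z * ((z.den : ℚ) * ((k : ℚ) + 1)) ^ 3) ^ 2 : ℚ) = (t : ℚ) ^ 3 := by
        rw [← hwz]; exact_mod_cast ht
      obtain ⟨j, hj⟩ := N_zpow (ne_of_N hx0)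
      obtain ⟨j', hj'⟩ := N_zpow (mul_ne_zero hden (hk1 k))
      have h27 : N 27 = 1 / 27 := by
        rw [show (27 : ℚ) = 3 ^ 3 by norm_num, N_pow, N_three]; norm_num
      have htne : (t : ℚ) ≠ 0 := by
        intro h0
        rw [h0] at ht'
        have h1 : z * ((z.den : ℚ) * ((k : ℚ) + 1)) ^ 3 ≠ 0 :=
          mul_ne_zero hzne (pow_ne_zero _ (mul_ne_zero hden (hk1 k)))
        have h2 : (z * ((z.den : ℚ) * ((k : ℚ) + 1)) ^ 3) ^ 2 ≠ 0 := pow_ne_zero _ h1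
        apply h2
        linear_combination -ht' / 27
      obtain ⟨s, hs⟩ := N_zpow htne
      have h1 := congrArg N ht'
      rw [N_mul, N_neg, h27, N_pow, N_mul, hz, N_pow, N_pow, hj, hj', hs] at h1
      have h2 : (1 / 27 * (9 * ((3 : ℝ) ^ j) ^ 3 * (3 ^ j') ^ 3) ^ 2) = 3 ^ (1 + 6 * j + 6 * j') := by
        rw [zpow_add₀ (by norm_num), zpow_add₀ (by norm_num), zpow_one, zpow_mul', zpow_mul']
        norm_cast
        ring
      have h3 : ((3 : ℝ) ^ s) ^ 3 = 3 ^ (3 * s) := by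
        rw [zpow_mul']
        norm_cast
      rw [h2, h3] at h1
      have h4 := zpow_right_injective₀ (by norm_num : (0 : ℝ) < 3) (by norm_num) h1
      omega
    · -- positive ranks
      have hc : ((z.den : ℚ) * ((k : ℚ) + 1)) ≠ 0 := mul_ne_zero hden (hk1 k)
      have key : ∀ i : ℕ, Good (((a * (-27 * (w k) ^ 2) ^ i : ℤ)) : ℚ) ∧
          Good (((a * (-27 * (w k) ^ 2) ^ (i + 1) : ℤ)) : ℚ) ∧
          Good (((a * (-27 * (w k) ^ 2) ^ (i + 2) : ℤ)) : ℚ) := by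
        intro i
        induction i with
        | zero =>
          refine ⟨by simpa using hga, ?_, ?_⟩
          · have := g1.scale hc
            refine cast (congrArg Good ?_) this
            push_cast
            rw [hwz]
            ring
          · have := g2.scale (pow_ne_zero 2 hc)
            refine cast (congrArg Good ?_) this
            push_cast
            rw [hwz]
            ring
        | succ i ih =>
          refine ⟨ih.2.1, ih.2.2, ?_⟩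
          have hw3 : (3 * ((w k : ℤ) : ℚ)) ≠ 0 := by
            have : ((w k : ℤ) : ℚ) ≠ 0 := by exact_mod_cast hwne k
            positivity
          have := ih.1.isog hw3
          refine cast (congrArg Good ?_) this
          push_cast
          ring
      exact fun i => (key i).1.rk_pos

end Pool.Agent.Results.MP_cfe824_nt.GeometricProgressions
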